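import Pool.Agent.W_MP_78a2de_al.Main

/-!
MP_78a2de_al, question Q1, answered in the affirmative: for every `n ≥ 1`, every system of
equations from `E_n` which contains `x_1 = 1` and has finitely many complex solutions has all its
solutions in the polydisc of radius `2 ^ (2 ^ (n - 2))`.
-/

namespace Pool.Agent.Results.MP_78a2de_al.ModulusBound

open Pool.Agent.W_MP_78a2de_al

/-! ### The systems of the problem -/

/-- The equations of the problem in the variables `x_1, ..., x_n` (indexed by `Fin n`). -/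
inductive Eqn (n : ℕ) : Type
  /-- the equation `x_i = 1` -/
  | one (i : Fin n) : Eqn n
  /-- the equation `x_i + x_j = x_k` -/
  | add (i j k : Fin n) : Eqn n
  /-- the equation `x_i * x_j = x_k` -/
  | mul (i j k : Fin n) : Eqn n

/-- The point `x` satisfies the equation. -/
def Eqn.Holds {n : ℕ} (x : Fin n → ℂ) : Eqn n → Prop
  | one i => x i = 1
  | add i j k => x i + x j = x k
  | mul i j k => x i * x j = x k

/-- The set `E_n`: the indices on the left of a sum or a product are ordered. -/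
def En (n : ℕ) : Set (Eqn n) :=
  {e | (∃ i, e = Eqn.one i) ∨ (∃ i j k, i ≤ j ∧ e = Eqn.add i j k) ∨
    ∃ i j k, i ≤ j ∧ e = Eqn.mul i j k}

/-- The complex solutions of a system. -/
def sol {n : ℕ} (S : Set (Eqn n)) : Set (Fin n → ℂ) := {x | ∀ e ∈ S, e.Holds x}

theorem rpow_bound {n : ℕ} (hn : 2 ≤ n) {m : ℕ} (hm : m + 1 ≤ n) :
    (2 : ℝ) ^ (2 ^ (m - 1)) ≤ (2 : ℝ) ^ ((2 : ℝ) ^ ((n : ℝ) - 2)) := by
  rw [← Real.rpow_natCast]
  apply Real.rpow_le_rpow_of_exponent_le (by norm_num)
  push_cast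
  rw [← Real.rpow_natCast]
  apply Real.rpow_le_rpow_of_exponent_le (by norm_num)
  rcases Nat.eq_zero_or_pos m with rfl | hm0
  · simp only [Nat.zero_sub, Nat.cast_zero]
    have : (2 : ℝ) ≤ n := by exact_mod_cast hn
    linarith
  · rw [Nat.cast_sub hm0]
    have : (m : ℝ) + 1 ≤ n := by exact_mod_cast hm
    push_cast
    linarith

theorem one_le_bound (n : ℕ) : (1 : ℝ) ≤ (2 : ℝ) ^ ((2 : ℝ) ^ ((n : ℝ) - 2)) :=
  Real.one_le_rpow (by norm_num) (by positivity)

theorem modulus_bound {n : ℕ} (i₀ : Fin n) (S : Set (Eqn n)) (h1 : Eqn.one i₀ ∈ S)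
    (hfin : (sol S).Finite) (x : Fin n → ℂ) (hx : x ∈ sol S) (i : Fin n) :
    ‖x i‖ ≤ (2 : ℝ) ^ ((2 : ℝ) ^ ((n : ℝ) - 2)) := by
  classical
  have hx1 : x i₀ = 1 := hx _ h1
  by_cases hi : x i = 0
  · rw [hi, norm_zero]
    exact zero_le_one.trans (one_le_bound n)
  -- the nonzero coordinates
  obtain ⟨m, φ, hφ0, hφinj, hφr, hmn⟩ : ∃ (m : ℕ) (φ : Option (Fin m) → Fin n), φ none = i₀ ∧
      Function.Injective φ ∧ (∀ j, x j ≠ 0 ↔ ∃ l, φ l = j) ∧ m + 1 ≤ n := by
    let Z := {j : Fin n // x j ≠ 0 ∧ j ≠ i₀}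
    let ez : Fin (Fintype.card Z) ≃ Z := (Fintype.equivFin Z).symm
    refine ⟨Fintype.card Z, fun o => o.elim i₀ fun l => (ez l : Fin n), rfl, ?_, ?_, ?_⟩
    · intro a b hab
      rcases a with _ | a <;> rcases b with _ | b
      · rfl
      · exact absurd hab.symm (ez b).2.2
      · exact absurd hab (ez a).2.2
      · have : ez a = ez b := Subtype.ext hab
        rw [ez.injective this]
    · intro j
      constructor
      · intro hj
        by_cases hji : j = i₀
        · exact ⟨none, hji.symm⟩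
        · exact ⟨some (ez.symm ⟨j, hj, hji⟩), by simp⟩
      · rintro ⟨l, rfl⟩
        rcases l with _ | l
        · simp [hx1]
        · exact (ez l).2.1
    · have h2 : Fintype.card Z < Fintype.card (Fin n) :=
        Fintype.card_lt_of_injective_of_notMem (fun z : Z => (z : Fin n)) Subtype.val_injective
          (b := i₀) (by
            rintro ⟨z, hz⟩
            exact z.2.2 hz)
      simpa using h2
  have hφne : ∀ l, x (φ l) ≠ 0 := fun l => (hφr _).2 ⟨l, rfl⟩
  obtain ⟨l, rfl⟩ := (hφr i).1 hi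
  rcases Nat.eq_zero_or_pos m with rfl | hm
  · have : l = none := by
      rcases l with _ | l
      · rfl
      · exact l.elim0
    rw [this, hφ0, hx1, norm_one]
    exact one_le_bound n
  let mulE : Set (Option (Fin m) × Option (Fin m) × Option (Fin m) × ℤˣ) :=
    {e | (e.2.2.2 = 1 ∧ Eqn.mul (φ e.1) (φ e.2.1) (φ e.2.2.1) ∈ S) ∨
      (e.2.2.2 = 1 ∧ e.2.1 = none ∧ e.2.2.1 = none ∧ Eqn.one (φ e.1) ∈ S) ∨
      (e.2.2.2 = 1 ∧ e.2.1 = none ∧ ∃ j, x j = 0 ∧ (Eqn.add j (φ e.1) (φ e.2.2.1) ∈ S ∨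
        Eqn.add (φ e.1) j (φ e.2.2.1) ∈ S)) ∨
      (e.2.2.2 = -1 ∧ e.2.1 = none ∧ ∃ k, x k = 0 ∧ Eqn.add (φ e.1) (φ e.2.2.1) k ∈ S)}
  let E : Set (Option (Fin m) × Option (Fin m) × Option (Fin m)) :=
    {e | Eqn.add (φ e.1) (φ e.2.1) (φ e.2.2) ∈ S}
  have hmul : ∀ e ∈ mulE, x (φ e.1) * x (φ e.2.1) = ((e.2.2.2 : ℤ) : ℂ) * x (φ e.2.2.1) := by
    rintro ⟨a, b, c, ε⟩ he
    simp only [mulE, Set.mem_ofPred_eq] at he ⊢
    rcases he with ⟨rfl, h⟩ | ⟨rfl, rfl, rfl, h⟩ | ⟨rfl, rfl, j, hj, h | h⟩ | ⟨rfl, rfl, k, hk, h⟩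
    · have := hx _ h
      simpa [Eqn.Holds] using this
    · have := hx _ h
      simp only [Eqn.Holds] at this
      simp [this, hφ0, hx1]
    · have := hx _ h
      simp only [Eqn.Holds, hj, zero_add] at this
      simp [this, hφ0, hx1]
    · have := hx _ h
      simp only [Eqn.Holds, hj, add_zero] at this
      simp [this, hφ0, hx1]
    · have := hx _ h
      simp only [Eqn.Holds, hk] at this
      simp [eq_neg_of_add_eq_zero_left this, hφ0, hx1]
  have hadd : ∀ e ∈ E, SumEq (fun l => x (φ l)) e := by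
    rintro ⟨a, b, c⟩ he
    exact hx _ he
  -- extension by zero
  let ext : (Option (Fin m) → ℂ) → Fin n → ℂ := fun y j =>
    if h : ∃ l, φ l = j then y h.choose else 0
  have hext1 : ∀ y l, ext y (φ l) = y l := by
    intro y l
    have h : ∃ l', φ l' = φ l := ⟨l, rfl⟩
    simp only [ext, dif_pos h]
    rw [hφinj h.choose_spec]
  have hext0 : ∀ y j, x j = 0 → ext y j = 0 := by
    intro y j hj
    simp only [ext]
    rw [dif_neg]
    intro h
    exact (hφr j).2 h hj
  have hcases : ∀ j, x j = 0 ∨ ∃ l, φ l = j := fun j => by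
    by_cases hj : x j = 0
    · exact Or.inl hj
    · exact Or.inr ((hφr j).1 hj)
  have hbig := main_nonzero hm mulE E (fun l => x (φ l)) (by rw [hφ0, hx1]) hφne hmul hadd
    (by
      apply Set.Finite.of_finite_image (f := ext) (hfin.subset _)
      · intro y _ y' _ h
        funext l
        rw [← hext1 y, ← hext1 y', h]
      · rintro _ ⟨y, ⟨hy0, hy, hymul, hyadd⟩, rfl⟩
        intro e he
        rcases e with ⟨i⟩ | ⟨i, j, k⟩ | ⟨i, j, k⟩
        · have h2 : x i = 1 := hx _ he
          obtain ⟨a, rfl⟩ := (hφr i).1 (by rw [h2]; exact one_ne_zero)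
          have h3 := hymul (a, none, none, 1) (Or.inr (Or.inl ⟨rfl, rfl, rfl, he⟩))
          simp only [Eqn.Holds, hext1]
          simpa [hy0] using h3
        · have h2 : x i + x j = x k := hx _ he
          simp only [Eqn.Holds]
          rcases hcases i with hi | ⟨a, rfl⟩ <;> rcases hcases j with hj | ⟨b, rfl⟩ <;>
            rcases hcases k with hk | ⟨c, rfl⟩
          · simp [hext0 _ _ hi, hext0 _ _ hj, hext0 _ _ hk]
          · rw [hi, hj, add_zero] at h2
            exact absurd h2.symm (hφne c)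
          · rw [hi, hk, zero_add] at h2
            exact absurd h2 (hφne b)
          · have h3 := hymul (b, none, c, 1)
              (Or.inr (Or.inr (Or.inl ⟨rfl, rfl, i, hi, Or.inl he⟩)))
            simp only [hext0 _ _ hi, hext1]
            simpa [hy0] using h3
          · rw [hj, hk, add_zero] at h2
            exact absurd h2 (hφne a)
          · have h3 := hymul (a, none, c, 1)
              (Or.inr (Or.inr (Or.inl ⟨rfl, rfl, j, hj, Or.inr he⟩)))
            simp only [hext0 _ _ hj, hext1]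
            simpa [hy0] using h3
          · have h3 := hymul (a, none, b, -1)
              (Or.inr (Or.inr (Or.inr ⟨rfl, rfl, k, hk, he⟩)))
            simp only [hext0 _ _ hk, hext1]
            simp only [hy0, mul_one, Units.val_neg, Units.val_one, Int.cast_neg, Int.cast_one,
              neg_mul, one_mul] at h3
            rw [h3]
            ring
          · simp only [hext1]
            exact hyadd (a, b, c) he
        · have h2 : x i * x j = x k := hx _ he
          simp only [Eqn.Holds]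
          rcases hcases i with hi | ⟨a, rfl⟩
          · have hk : x k = 0 := by rw [← h2, hi, zero_mul]
            simp [hext0 _ _ hi, hext0 _ _ hk]
          rcases hcases j with hj | ⟨b, rfl⟩
          · have hk : x k = 0 := by rw [← h2, hj, mul_zero]
            simp [hext0 _ _ hj, hext0 _ _ hk]
          obtain ⟨c, rfl⟩ := (hφr k).1 (by rw [← h2]; exact mul_ne_zero (hφne a) (hφne b))
          have h3 := hymul (a, b, c, 1) (Or.inl ⟨rfl, he⟩)
          simp only [hext1]
          simpa using h3) l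
  exact hbig.trans (rpow_bound (by omega) hmn)

theorem result (n : ℕ) (hn : 1 ≤ n) (S : Set (Eqn n)) (_hS : S ⊆ En n)
    (h1 : Eqn.one ⟨0, hn⟩ ∈ S) (hfin : (sol S).Finite) (x : Fin n → ℂ) (hx : x ∈ sol S)
    (i : Fin n) : ‖x i‖ ≤ (2 : ℝ) ^ ((2 : ℝ) ^ ((n : ℝ) - 2)) :=
  modulus_bound ⟨0, hn⟩ S h1 hfin x hx i

end Pool.Agent.Results.MP_78a2de_al.ModulusBound
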